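import Pool.Agent.TH585.SV.Fib6
import Pool.Agent.Y191.Base

/-!
Sections of the symmetric powers of the bundles of holomorphic `q`-forms, which are powers of one form
times rational functions.
-/

set_option autoImplicit false

open Matrix FF Pool.Agent.W602.GT Pool.Agent.W603.LV Pool.Agent.TH585.SV

namespace Pool.Agent.V5SU.SF

variable {K : Type} [Field K] [Algebra ℂ K]

/-- the section `f (d x_1 ∧ ... ∧ d x_q) ^ m` of `S ^ m Ω ^ q` -/
noncomputable def sec {q : ℕ} (x : Fin q → K) (f : K) (m : ℕ) :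
    MultilinearMap K (fun _ : Fin m × Fin q => Derivation ℂ K K) K :=
  f • blkMul (dform x) m

theorem sec_apply {q : ℕ} (x : Fin q → K) (f : K) (m : ℕ)
    (D : Fin m × Fin q → Derivation ℂ K K) :
    sec x f m D = f * ∏ b, (mtx x (fun j => D (b, j))).det := rfl

theorem sec_alt {q : ℕ} (x : Fin q → K) (f : K) (m : ℕ)
    (D : Fin m × Fin q → Derivation ℂ K K) (a : Fin m) {i j : Fin q} (hij : i ≠ j)
    (h : D (a, i) = D (a, j)) : sec x f m D = 0 := by
  rw [sec_apply]
  have h1 : (mtx x (fun j => D (a, j))).det = 0 := by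
    refine Matrix.det_zero_of_row_eq hij ?_
    funext l
    change D (a, i) (x l) = D (a, j) (x l)
    rw [h]
  rw [Finset.prod_eq_zero (Finset.mem_univ a) h1, mul_zero]

theorem sec_symm {q : ℕ} (x : Fin q → K) (f : K) (m : ℕ)
    (D : Fin m × Fin q → Derivation ℂ K K) (σ : Equiv.Perm (Fin m)) :
    sec x f m (fun z => D (σ z.1, z.2)) = sec x f m D := by
  rw [sec_apply, sec_apply]
  congr 1
  exact Equiv.prod_comp σ (fun b => (mtx x (fun j => D (b, j))).det)

theorem sec_reg {P : Place ℂ K} {q : ℕ} {x : Fin q → K} {f : K} {m : ℕ} (hm : 0 < m)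
    (h : ∀ E : Fin q → Derivation ℂ K K, (∀ i, DerReg P (E i)) →
      Ge P 0 ((mtx x E).det ^ m * f)) (D : Fin m × Fin q → Derivation ℂ K K)
    (hD : ∀ j, DerReg P (D j)) : P.Reg (sec x f m D) := by
  have h1 := tns_reg hm (fun E hE _ => h E hE) (fun j => D (finProdFinEquiv.symm j))
    (fun j => hD _)
  rw [tns_apply] at h1
  rw [sec_apply]
  simpa only [Equiv.symm_apply_apply] using h1

/-- a value where the section is `f` -/
theorem exists_eval {q : ℕ} {x : Fin q → K} (hx : AlgebraicIndependent ℂ x) (m : ℕ) :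
    ∃ D : Fin m × Fin q → Derivation ℂ K K, ∀ f : K, sec x f m D = f := by
  classical
  obtain ⟨D0, hD0⟩ := Pool.Agent.Y191.exists_dual hx
  refine ⟨fun z => D0 z.2, fun f => ?_⟩
  rw [sec_apply, Finset.prod_eq_one, mul_one]
  intro c _
  have h2 : mtx x (fun j => D0 j) = 1 := by
    refine Matrix.ext fun i j => ?_
    rw [Matrix.one_apply]
    exact hD0 i j
  rw [h2, det_one]

end Pool.Agent.V5SU.SF
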