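import Mathlib

/-! The weights of three points with product one: cyclic covers of the line of genus zero have two
branch points. -/

set_option autoImplicit false

namespace Pool.Agent.V5SU

/-- three nonzero elements of `ℤ / m` with sum zero -/
theorem sorted {m : ℕ} [NeZero m] {a b c : ZMod m} (ha : a ≠ 0) (hb : b ≠ 0) (hc : c ≠ 0)
    (h : a + b + c = 0) (h1 : addOrderOf a ≤ addOrderOf b) (h2 : addOrderOf b ≤ addOrderOf c) :
    (1 : ℚ) / addOrderOf a + 1 / addOrderOf b + 1 / addOrderOf c ≤ 1 := by
  have fa : 0 < addOrderOf a := addOrderOf_pos a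
  have fb : 0 < addOrderOf b := addOrderOf_pos b
  have fc : 0 < addOrderOf c := addOrderOf_pos c
  have ga : addOrderOf a ≠ 1 := fun h0 => ha (AddMonoid.addOrderOf_eq_one_iff.1 h0)
  have gb : addOrderOf b ≠ 1 := fun h0 => hb (AddMonoid.addOrderOf_eq_one_iff.1 h0)
  have gc : addOrderOf c ≠ 1 := fun h0 => hc (AddMonoid.addOrderOf_eq_one_iff.1 h0)
  have mono : ∀ {s t : ℕ}, 0 < s → s ≤ t → (1 : ℚ) / t ≤ 1 / s := fun {s t} hs hst =>
    one_div_le_one_div_of_le (by exact_mod_cast hs) (by exact_mod_cast hst)
  by_cases h3 : 3 ≤ addOrderOf a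
  · have e1 := mono (by norm_num : 0 < 3) h3
    have e2 := mono (by norm_num : 0 < 3) (h3.trans h1)
    have e3 := mono (by norm_num : 0 < 3) (h3.trans (h1.trans h2))
    push_cast at e1 e2 e3
    linarith
  have k1 : addOrderOf a = 2 := by omega
  have ka : 2 • a = 0 := by rw [← k1]; exact addOrderOf_nsmul_eq_zero a
  by_cases h4 : 4 ≤ addOrderOf b
  · have e2 := mono (by norm_num : 0 < 4) h4
    have e3 := mono (by norm_num : 0 < 4) (h4.trans h2)
    rw [k1]
    push_cast at e2 e3 ⊢
    linarith
  have hcab : c = -(a + b) := by linear_combination h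
  have k2 : addOrderOf b = 2 ∨ addOrderOf b = 3 := by omega
  rcases k2 with k2 | k2
  · exfalso
    have kb : 2 • b = 0 := by rw [← k2]; exact addOrderOf_nsmul_eq_zero b
    -- in `ZMod m` there is one element of order two
    have hab : a = b := by
      have key : ∀ z : ZMod m, 2 • z = 0 → z ≠ 0 → 2 * z.val = m := by
        intro z hz hz0
        have h5 : ((2 * z.val : ℕ) : ZMod m) = 0 := by
          push_cast
          rw [ZMod.natCast_zmod_val]
          rw [two_nsmul] at hz
          rw [two_mul]
          exact hz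
        rw [ZMod.natCast_eq_zero_iff] at h5
        obtain ⟨t, ht⟩ := h5
        have h6 : z.val < m := ZMod.val_lt z
        have h7 : z.val ≠ 0 := fun h0 => hz0 ((ZMod.val_eq_zero z).1 h0)
        have h8 : t = 1 := by
          have : m * t < m * 2 := by omega
          have h9 : t < 2 := lt_of_mul_lt_mul_left this (Nat.zero_le _)
          have h10 : t ≠ 0 := by
            rintro rfl
            omega
          omega
        rw [h8] at ht
        omega
      have e1 := key a ka ha
      have e2 := key b kb hb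
      exact ZMod.val_injective m (by omega)
    apply hc
    rw [hcab, ← hab, ← two_nsmul, ka, neg_zero]
  · have kb : 3 • b = 0 := by rw [← k2]; exact addOrderOf_nsmul_eq_zero b
    by_cases h6 : 6 ≤ addOrderOf c
    · have e3 := mono (by norm_num : 0 < 6) h6
      rw [k1, k2]
      push_cast at e3 ⊢
      linarith
    exfalso
    have kc : 6 • c = 0 := by
      rw [hcab, smul_neg, smul_add, show (6 : ℕ) = 3 * 2 by norm_num, mul_smul, ka, mul_comm,
        mul_smul, kb]
      simp
    have k3 : addOrderOf c ∣ 6 := addOrderOf_dvd_of_nsmul_eq_zero kc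
    have k4 : addOrderOf c = 3 := by
      have h7 : addOrderOf c < 6 := by omega
      have h8 : 3 ≤ addOrderOf c := by omega
      interval_cases hh : addOrderOf c <;> omega
    have kc3 : 3 • c = 0 := by rw [← k4]; exact addOrderOf_nsmul_eq_zero c
    have ka3 : 3 • a = 0 := by
      have : a = -(b + c) := by linear_combination h
      rw [this, smul_neg, smul_add, kb, kc3]
      simp
    apply ha
    have : a = 3 • a - 2 • a := by
      simp only [nsmul_eq_mul]
      push_cast
      ring
    rw [this, ka3, ka, sub_zero]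

theorem three {m : ℕ} [NeZero m] {a b c : ZMod m} (ha : a ≠ 0) (hb : b ≠ 0) (hc : c ≠ 0)
    (h : a + b + c = 0) :
    (1 : ℚ) / addOrderOf a + 1 / addOrderOf b + 1 / addOrderOf c ≤ 1 := by
  rcases le_total (addOrderOf a) (addOrderOf b) with h1 | h1 <;>
  rcases le_total (addOrderOf b) (addOrderOf c) with h2 | h2 <;>
  rcases le_total (addOrderOf a) (addOrderOf c) with h3 | h3
  · exact sorted ha hb hc h h1 h2
  · exact sorted ha hb hc h h1 h2
  · have := sorted ha hc hb (by linear_combination h) h3 h2
    linarith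
  · have := sorted hc ha hb (by linear_combination h) h3 h1
    linarith
  · have := sorted hb ha hc (by linear_combination h) h1 h3
    linarith
  · have := sorted hb hc ha (by linear_combination h) h2 h3
    linarith
  · have := sorted hc hb ha (by linear_combination h) h2 h1
    linarith
  · have := sorted hc hb ha (by linear_combination h) h2 h1
    linarith

theorem gcd_div {m : ℕ} [NeZero m] (a : ℕ) :
    ((m.gcd a : ℕ) : ℚ) / m = 1 / addOrderOf (a : ZMod m) := by
  rw [ZMod.addOrderOf_coe a (NeZero.ne m)]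
  have h1 : 0 < m.gcd a := Nat.gcd_pos_of_pos_left a (Nat.pos_of_ne_zero (NeZero.ne m))
  have h2 : (m : ℚ) ≠ 0 := by exact_mod_cast NeZero.ne m
  have h3 : (m.gcd a : ℚ) ≠ 0 := by exact_mod_cast h1.ne'
  rw [Nat.cast_div (Nat.gcd_dvd_left m a) h3]
  field_simp

/-- the weight -/
def wt (m a : ℕ) : ℚ := 1 - (m.gcd a : ℚ) / m

theorem wt_eq_zero {m a : ℕ} (hm : 1 ≤ m) (h : m ∣ a) : wt m a = 0 := by
  have h2 : (m : ℚ) ≠ 0 := by exact_mod_cast (by omega : m ≠ 0)
  rw [wt, Nat.gcd_eq_left h, div_self h2, sub_self]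

theorem half_le {m a : ℕ} (hm : 1 ≤ m) (h : ¬ m ∣ a) : (1 : ℚ) / 2 ≤ wt m a := by
  have hm0 : (0 : ℚ) < m := by exact_mod_cast hm
  obtain ⟨t, ht⟩ := Nat.gcd_dvd_left m a
  have ht2 : 2 ≤ t := by
    by_contra h0
    have h1 : t = 0 ∨ t = 1 := by omega
    rcases h1 with h1 | h1
    · rw [h1, mul_zero] at ht
      omega
    · rw [h1, mul_one] at ht
      exact h (ht ▸ Nat.gcd_dvd_right m a)
  have h3 : (m.gcd a : ℚ) * 2 ≤ m := by
    have : m.gcd a * 2 ≤ m := by
      calc m.gcd a * 2 ≤ m.gcd a * t := Nat.mul_le_mul_left _ ht2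
        _ = m := ht.symm
    exact_mod_cast this
  have h4 : (m.gcd a : ℚ) / m ≤ 1 / 2 := by
    rw [div_le_iff₀ hm0]
    linarith
  rw [wt]
  linarith

theorem wt_nonneg {m a : ℕ} (hm : 1 ≤ m) : 0 ≤ wt m a := by
  by_cases h : m ∣ a
  · rw [wt_eq_zero hm h]
  · linarith [half_le hm h]

/-- two branch points over the affine line, and infinity -/
theorem two_wt {m a b : ℕ} (hm : 1 ≤ m) (ha : ¬ m ∣ a) (hb : ¬ m ∣ b) (hab : ¬ m ∣ a + b) :
    2 ≤ wt m a + wt m b + wt m (a + b) := by
  have : NeZero m := ⟨by omega⟩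
  have h1 := three (a := (a : ZMod m)) (b := (b : ZMod m)) (c := -((a + b : ℕ) : ZMod m))
    (by rwa [Ne, ZMod.natCast_eq_zero_iff]) (by rwa [Ne, ZMod.natCast_eq_zero_iff])
    (by rwa [Ne, neg_eq_zero, ZMod.natCast_eq_zero_iff]) (by push_cast; ring)
  rw [addOrderOf_neg, ← gcd_div, ← gcd_div, ← gcd_div] at h1
  unfold wt
  linarith

/-- three branch points over the affine line -/
theorem three_wt {m a b c : ℕ} (hm : 1 ≤ m) (ha : ¬ m ∣ a) (hb : ¬ m ∣ b) (hc : ¬ m ∣ c) :
    2 ≤ wt m a + wt m b + wt m c + wt m (a + b + c) := by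
  have : NeZero m := ⟨by omega⟩
  by_cases h : m ∣ a + b + c
  · rw [wt_eq_zero hm h, add_zero]
    have h1 := three (a := (a : ZMod m)) (b := (b : ZMod m)) (c := (c : ZMod m))
      (by rwa [Ne, ZMod.natCast_eq_zero_iff]) (by rwa [Ne, ZMod.natCast_eq_zero_iff])
      (by rwa [Ne, ZMod.natCast_eq_zero_iff]) (by
        rw [← ZMod.natCast_eq_zero_iff] at h
        push_cast at h
        exact h)
    rw [← gcd_div, ← gcd_div, ← gcd_div] at h1
    unfold wt
    linarith
  · have h1 := half_le hm ha
    have h2 := half_le hm hb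
    have h3 := half_le hm hc
    have h4 := half_le hm h
    linarith

/-- **The branch points.** `R` is a multiset of exponents, none of them divisible by `m`. -/
theorem branch {m : ℕ} (hm : 1 ≤ m) (R : Multiset ℕ) (hR : ∀ a ∈ R, ¬ m ∣ a)
    (h : (R.map (wt m)).sum + wt m R.sum < 2) :
    R.card ≤ 1 ∨ (R.card = 2 ∧ m ∣ R.sum) := by
  by_cases h1 : R.card ≤ 1
  · exact Or.inl h1
  right
  by_cases h2 : R.card = 2
  · obtain ⟨a, b, rfl⟩ := Multiset.card_eq_two.1 h2
    refine ⟨h2, ?_⟩
    by_contra hab
    simp only [Multiset.insert_eq_cons, Multiset.sum_cons, Multiset.sum_singleton] at hab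
    have ha := hR a (by simp)
    have hb := hR b (by simp)
    have h3 := two_wt hm ha hb hab
    simp only [Multiset.insert_eq_cons, Multiset.map_cons, Multiset.map_singleton,
      Multiset.sum_cons, Multiset.sum_singleton] at h
    linarith
  by_cases h3 : R.card = 3
  · exfalso
    obtain ⟨a, b, c, rfl⟩ := Multiset.card_eq_three.1 h3
    have h4 := three_wt hm (hR a (by simp)) (hR b (by simp)) (hR c (by simp))
    simp only [Multiset.insert_eq_cons, Multiset.map_cons, Multiset.map_singleton,
      Multiset.sum_cons, Multiset.sum_singleton] at h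
    rw [add_assoc] at h4
    have : a + (b + c) = a + b + c := by ring
    rw [this] at h
    linarith
  · exfalso
    have h4 : 4 ≤ R.card := by omega
    have h5 : (R.card : ℚ) * (1 / 2) ≤ (R.map (wt m)).sum := by
      have : ∀ S : Multiset ℕ, (∀ a ∈ S, ¬ m ∣ a) → (S.card : ℚ) * (1 / 2) ≤ (S.map (wt m)).sum := by
        intro S
        induction S using Multiset.induction_on with
        | empty => intro _; simp
        | cons a S ih =>
          intro hS
          have h6 := ih fun x hx => hS x (Multiset.mem_cons_of_mem hx)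
          have h7 := half_le hm (hS a (Multiset.mem_cons_self a S))
          rw [Multiset.map_cons, Multiset.sum_cons, Multiset.card_cons]
          push_cast
          linarith
      exact this R hR
    have h6 : (4 : ℚ) ≤ R.card := by exact_mod_cast h4
    have h7 := wt_nonneg (a := R.sum) hm
    linarith

end Pool.Agent.V5SU
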