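import Pool.Agent.V5SU.Par
import Pool.Agent.TH585.SV.Uni

/-! Varieties fibred in products of cyclic covers of the line, one of them rational, are uniruled. -/

set_option autoImplicit false

open IntermediateField Pool.Agent.TH585.SV
open scoped IntermediateField.algebraAdjoinAdjoin

namespace Pool.Agent.V5SU

theorem map_sum_ms {α β ι : Type} [AddCommMonoid β] (s : Finset ι) (f : ι → Multiset α) (g : α → β) :
    ((∑ i ∈ s, f i).map g).sum = ∑ i ∈ s, ((f i).map g).sum := by
  classical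
  induction s using Finset.induction_on with
  | empty => simp
  | insert i s hi ih =>
    rw [Finset.sum_insert hi, Finset.sum_insert hi, Multiset.map_add, Multiset.sum_add, ih]

theorem map_prod_ms {α β ι : Type} [CommMonoid β] (s : Finset ι) (f : ι → Multiset α) (g : α → β) :
    ((∑ i ∈ s, f i).map g).prod = ∏ i ∈ s, ((f i).map g).prod := by
  classical
  induction s using Finset.induction_on with
  | empty => simp
  | insert i s hi ih =>
    rw [Finset.sum_insert hi, Finset.prod_insert hi, Multiset.map_add, Multiset.prod_add, ih]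

theorem transc {K : Type} [Field K] [Algebra ℂ K] {F : IntermediateField ℂ K} {e : ℕ}
    {x : Fin e → K} (hx : AlgebraicIndependent F x) (j : Fin e) (A : IntermediateField ℂ K)
    (hA : A = adjoin ℂ ((F : Set K) ∪ x '' {j}ᶜ)) : ¬ IsAlgebraic A (x j) := by
  intro h
  have h1 := hx.transcendental_adjoin (i := j) (s := {j}ᶜ) (by simp)
  apply h1
  have h2 : A = (adjoin F (x '' {j}ᶜ)).restrictScalars ℂ := by
    rw [hA, restrictScalars_adjoin]
  have h3 : IsAlgebraic (adjoin F (x '' {j}ᶜ)) (x j) := by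
    subst h2
    exact h
  exact (IsFractionRing.isAlgebraic_iff (Algebra.adjoin F (x '' {j}ᶜ)) (adjoin F (x '' {j}ᶜ)) K).2 h3

theorem unir_cyc {K : Type} [Field K] [Algebra ℂ K] [Algebra.EssFiniteType ℂ K] {n : ℕ}
    (hK : Algebra.trdeg ℂ K = n) {F : IntermediateField ℂ K} {e : ℕ} {x y : Fin e → K}
    {m s : Fin e → ℕ} {g : ∀ j, Fin (s j) → Polynomial F} {a : ∀ j, Fin (s j) → ℕ} {c : Fin e → K}
    (bas : IsTranscendenceBasis F x) (pos : ∀ j, 1 ≤ m j) (cst : ∀ j, c j ∈ F)
    (eq : ∀ j, y j ^ m j = c j * ∏ k, Polynomial.aeval (x j) (g j k) ^ a j k)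
    (top : IntermediateField.adjoin ℂ ((F : Set K) ∪ Set.range x ∪ Set.range y) = ⊤) (j₀ : Fin e)
    (hw : ∑ k, ((g j₀ k).natDegree : ℚ) * wt (m j₀) (a j₀ k) +
      wt (m j₀) (∑ k, a j₀ k * (g j₀ k).natDegree) < 2) : Unir K n := by
  classical
  obtain ⟨A, hA⟩ : ∃ A : IntermediateField ℂ K, A = adjoin ℂ ((F : Set K) ∪ x '' {j₀}ᶜ) := ⟨_, rfl⟩
  have htr := transc bas.1 j₀ A hA
  have hFA : ∀ z ∈ F, z ∈ A := fun z hz => by
    rw [hA]
    exact subset_adjoin ℂ _ (Or.inl hz)
  have hxA : ∀ j, j ≠ j₀ → x j ∈ A := fun j hj => by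
    rw [hA]
    exact subset_adjoin ℂ _ (Or.inr ⟨j, hj, rfl⟩)
  have hgen : ∀ (S : IntermediateField ℂ K) (_ : ∀ z ∈ F, z ∈ S) (j : Fin e) (_ : x j ∈ S)
      (p : Polynomial F), Polynomial.aeval (x j) p ∈ S := by
    intro S hS j hj p
    rw [Polynomial.aeval_eq_sum_range]
    refine sum_mem fun i _ => ?_
    rw [Algebra.smul_def]
    exact mul_mem (hS _ (p.coeff i).2) (pow_mem hj _)
  -- the algebraic closure
  obtain ⟨M, hM⟩ : ∃ M : IntermediateField ℂ (AlgebraicClosure K),
      M = (algebraicClosure A (AlgebraicClosure K)).restrictScalars ℂ := ⟨_, rfl⟩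
  have hMm : ∀ z, z ∈ M ↔ IsAlgebraic A z := fun z => by
    rw [hM, mem_restrictScalars, mem_algebraicClosure_iff]
  have hMF : ∀ a ∈ A, algebraMap K (AlgebraicClosure K) a ∈ M := fun a ha => by
    rw [hMm]
    exact isAlgebraic_algebraMap (⟨a, ha⟩ : A)
  have hMc : ∀ z : AlgebraicClosure K, IsAlgebraic M z → z ∈ M := by
    intro z hz
    rw [hMm]
    subst hM
    have h1 : IsAlgebraic (algebraicClosure A (AlgebraicClosure K)) z := hz
    exact h1.restrictScalars A
  have hMtr : Algebra.trdeg ℂ M + 1 ≤ n := by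
    have h1 : Algebra.trdeg ℂ M = Algebra.trdeg ℂ A := by
      subst hM
      change Algebra.trdeg ℂ (algebraicClosure A (AlgebraicClosure K)) = _
      have h2 : Algebra.IsAlgebraic A (algebraicClosure A (AlgebraicClosure K)) := inferInstance
      rw [← _root_.trdeg_add_eq ℂ A (A := algebraicClosure A (AlgebraicClosure K)),
        trdeg_eq_zero_iff.2 h2, add_zero]
    rw [h1, ← hK, ← _root_.trdeg_add_eq ℂ A (A := K)]
    have h2 : Algebra.trdeg A K ≠ 0 := by
      intro h0
      exact htr ((trdeg_eq_zero_iff.1 h0).isAlgebraic _)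
    exact add_le_add_right (Cardinal.one_le_iff_ne_zero.2 h2) _
  have hxM : algebraMap K (AlgebraicClosure K) (x j₀) ∉ M := by
    rw [hMm]
    intro h
    exact htr ((isAlgebraic_algebraMap_iff (algebraMap K (AlgebraicClosure K)).injective).1 h)
  have hyM : ∀ j, j ≠ j₀ → algebraMap K (AlgebraicClosure K) (y j) ∈ M := by
    intro j hj
    rw [hMm]
    have h1 : y j ^ m j ∈ A := by
      rw [eq]
      exact mul_mem (hFA _ (cst j)) (prod_mem fun k _ => pow_mem (hgen A hFA j (hxA j hj) _) _)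
    refine IsAlgebraic.of_pow (n := m j) (pos j) ?_
    rw [← map_pow]
    exact isAlgebraic_algebraMap (⟨_, h1⟩ : A)
  -- the roots
  obtain ⟨φ, hφ⟩ : ∃ φ : F →+* AlgebraicClosure K,
      φ = (algebraMap K (AlgebraicClosure K)).comp (algebraMap F K) := ⟨_, rfl⟩
  have hφM : ∀ z, φ z ∈ M := fun z => by
    rw [hφ]
    exact hMF _ (hFA _ z.2)
  have hsp : ∀ k, ((g j₀ k).map φ).Splits := fun k => IsAlgClosed.splits _
  obtain ⟨R, hR⟩ : ∃ R : Multiset (AlgebraicClosure K × ℕ),
      R = ∑ k, ((g j₀ k).map φ).roots.map fun ρ => (ρ, a j₀ k) := ⟨_, rfl⟩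
  have hRM : ∀ p ∈ R, p.1 ∈ M := by
    intro p hp
    rw [hR, Multiset.mem_sum] at hp
    obtain ⟨k, _, hk⟩ := hp
    obtain ⟨ρ, hρ, rfl⟩ := Multiset.mem_map.1 hk
    have h1 := (Polynomial.mem_roots'.1 hρ)
    apply hMc
    refine ⟨(g j₀ k).map (φ.codRestrict M.toSubalgebra.toSubring hφM), ?_, ?_⟩
    · intro h0
      apply h1.1
      have h2 := congrArg (Polynomial.map (algebraMap M (AlgebraicClosure K))) h0
      rw [Polynomial.map_map, Polynomial.map_zero] at h2
      exact h2
    · rw [Polynomial.aeval_def, Polynomial.eval₂_map]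
      have h2 := h1.2
      rw [Polynomial.IsRoot.def, Polynomial.eval_map] at h2
      exact h2
  have hcard : ∀ k, ((g j₀ k).map φ).roots.card = (g j₀ k).natDegree := fun k => by
    rw [← (hsp k).natDegree_eq_card_roots, Polynomial.natDegree_map]
  have hval : ∀ k, algebraMap K (AlgebraicClosure K) (Polynomial.aeval (x j₀) (g j₀ k)) =
      φ (g j₀ k).leadingCoeff * (((g j₀ k).map φ).roots.map fun ρ =>
        (algebraMap K (AlgebraicClosure K) (x j₀) - ρ)).prod := by
    intro k
    have h1 : algebraMap K (AlgebraicClosure K) (Polynomial.aeval (x j₀) (g j₀ k)) =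
        ((g j₀ k).map φ).eval (algebraMap K (AlgebraicClosure K) (x j₀)) := by
      rw [Polynomial.eval_map, hφ, Polynomial.aeval_def, Polynomial.hom_eval₂]
    rw [h1]
    conv_lhs => rw [(hsp k).eq_prod_roots]
    rw [Polynomial.eval_mul, Polynomial.eval_C, Polynomial.leadingCoeff_map,
      Polynomial.eval_multiset_prod, Multiset.map_map]
    simp
  obtain ⟨w, hw1, hw2⟩ := exists_par M hMc (pos j₀) (c := φ ⟨c j₀, cst j₀⟩ *
      ∏ k, φ (g j₀ k).leadingCoeff ^ a j₀ k) (z := algebraMap K _ (y j₀)) hxM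
    (mul_mem (hφM _) (prod_mem fun k _ => pow_mem (hφM _) _)) R hRM (by
      rw [← map_pow, eq, map_mul, map_prod, hR, map_prod_ms]
      have h1 : algebraMap K (AlgebraicClosure K) (c j₀) = φ ⟨c j₀, cst j₀⟩ := by
        rw [hφ]
        rfl
      rw [h1, mul_assoc, ← Finset.prod_mul_distrib]
      congr 1
      refine Finset.prod_congr rfl fun k _ => ?_
      rw [map_pow, hval, mul_pow, Multiset.map_map, ← Multiset.prod_map_pow]
      rfl) (by
      rw [hR, map_sum_ms, map_sum_ms]
      refine lt_of_eq_of_lt ?_ hw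
      congr 1
      · refine Finset.sum_congr rfl fun k _ => ?_
        rw [Multiset.map_map, ← hcard k]
        simp
      · congr 1
        refine Finset.sum_congr rfl fun k _ => ?_
        rw [Multiset.map_map, ← hcard k]
        simp [mul_comm])
  refine unir_of_adjoin (Ω := AlgebraicClosure K) hK M w hMtr ?_
  obtain ⟨S, hS⟩ : ∃ S : IntermediateField ℂ K,
      S = (adjoin ℂ ((M : Set (AlgebraicClosure K)) ∪ {w})).comap
        (IsScalarTower.toAlgHom ℂ K (AlgebraicClosure K)) := ⟨_, rfl⟩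
  have hSm : ∀ a, a ∈ S ↔ algebraMap K (AlgebraicClosure K) a ∈
      adjoin ℂ ((M : Set (AlgebraicClosure K)) ∪ {w}) := fun a => by
    rw [hS]
    rfl
  have hSM : ∀ a, algebraMap K (AlgebraicClosure K) a ∈ M → a ∈ S := fun a ha => by
    rw [hSm]
    exact subset_adjoin _ _ (Or.inl ha)
  have hS4 : (⊤ : IntermediateField ℂ K) ≤ S := by
    rw [← top, adjoin_le_iff]
    rintro a ((ha | ⟨j, rfl⟩) | ⟨j, rfl⟩)
    · exact hSM a (hMF a (hFA a ha))
    · by_cases hj : j = j₀
      · subst hj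
        exact (hSm _).2 hw1
      · exact hSM _ (hMF _ (hxA j hj))
    · by_cases hj : j = j₀
      · subst hj
        exact (hSm _).2 hw2
      · exact hSM _ (hyM j hj)
  exact fun g => (hSm g).1 (hS4 trivial)

end Pool.Agent.V5SU
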