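import Pool.Agent.Y191.CycNv
import Pool.Agent.V5SU.Unir

/-! Products of families of cyclic covers, one of them with weights of sum less than two, are
uniruled. -/

set_option autoImplicit false
set_option linter.overlappingInstances false
set_option linter.unusedSectionVars false

open FF Pool.Agent.W602.GT Pool.Agent.TH585.SV Pool.Agent.Y172 Pool.Agent.Y191

namespace Pool.Agent.V5SU

theorem unir_data {K : Type} [Field K] [Algebra ℂ K] {N : ℕ} {v : Fin (N + 1) → K}
    (hv : NormalModel v) {n : ℕ} (hn : Algebra.trdeg ℂ K = n) {F : IntermediateField ℂ K} {e : ℕ}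
    {x z : Fin e → K} {m s : Fin e → ℕ} {g : ∀ j, Fin (s j) → Polynomial F}
    {a : ∀ j, Fin (s j) → ℕ} {c : Fin e → K} (h : CycData F x z m s g a c)
    (hw : ∃ j, wsum m s g a j < 2) : Unir K n := by
  have hess := hv.ess
  obtain ⟨j₀, hj⟩ := hw
  exact unir_cyc hn h.bas h.pos (fun j => (h.cst j).1) h.eq h.top j₀ hj

end Pool.Agent.V5SU
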