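import Pool.Agent.V11322.LF.Fib
import Pool.Agent.V5SU.Data

/-!
Varieties with a linear system with powerful members, whose fibres are products of cyclic covers of
the line.
-/

set_option autoImplicit false
set_option linter.overlappingInstances false
set_option linter.unusedSectionVars false

open FF Pool.Agent.W602.GT Pool.Agent.W603.LV Pool.Agent.TH585.SV Pool.Agent.W619.PQ
open Pool.Agent.Y172 Pool.Agent.Y191

namespace Pool.Agent.V5SU

section

variable {K : Type} [Field K] [Algebra ℂ K] {d e k n q : ℕ}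

/-- The configuration of the members `φ i` is connected: `V` is not the direct sum of two nonzero
subspaces such that each `φ i` belongs to one of them. -/
def Connected {q : ℕ} (V : Submodule ℂ K) (φ : Fin q → K) : Prop :=
  ∀ W₁ W₂ : Submodule ℂ K, W₁ ⊔ W₂ = V → Disjoint W₁ W₂ → (∀ i, φ i ∈ W₁ ∨ φ i ∈ W₂) →
    W₁ = ⊥ ∨ W₂ = ⊥

theorem dcp_of {V : Submodule ℂ K} (hn : Module.finrank ℂ V = n + 1) {φ : Fin q → K}
    (hφ : Submodule.span ℂ (Set.range φ) = V) : Dcp n V φ (fun _ => (0 : Fin 1)) := by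
  have := Module.finite_of_finrank_pos (R := ℂ) (M := V) (by omega)
  let b := Module.finBasisOfFinrankEq ℂ V hn
  have hb : Submodule.span ℂ (Set.range fun i => (b i : K)) = V := by
    have h2 := congrArg (Submodule.map V.subtype) b.span_eq
    rw [Submodule.map_span, ← Set.range_comp, Submodule.map_top, Submodule.range_subtype] at h2
    exact h2
  refine ⟨fun i => b i, fun _ => 0, ?_, hb, fun a => ⟨0, (Subsingleton.elim _ _)⟩, fun i => ?_⟩
  · exact b.linearIndependent.map' V.subtype (Submodule.ker_subtype V)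
  · have h2 : (fun i => (b i : K)) '' {_a | (0 : Fin 1) = 0} = Set.range fun i => (b i : K) := by
      simp
    rw [h2, hb, ← hφ]
    exact Submodule.subset_span ⟨i, rfl⟩

theorem not_dcp {V : Submodule ℂ K} {φ : Fin q → K} (hc : Connected V φ) :
    ∀ γ' : Fin q → Fin (1 + 1), ¬ Dcp n V φ γ' := by
  rintro γ' ⟨b, g, hb, hbV, hg, hγ'⟩
  have h2 := hc (Submodule.span ℂ (b '' {a | g a = 0})) (Submodule.span ℂ (b '' {a | g a = 1}))
    (by
      rw [← Submodule.span_union, ← Set.image_union]
      rw [← hbV]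
      congr 1
      have : {a | g a = 0} ∪ {a | g a = 1} = Set.univ := by
        ext a
        simp only [Set.mem_union, Set.mem_ofPred_eq, Set.mem_univ, iff_true]
        generalize g a = z
        revert z
        decide
      rw [this, Set.image_univ])
    (hb.disjoint_span_image (by
      rw [Set.disjoint_left]
      rintro a (h3 : g a = 0) (h4 : g a = 1)
      rw [h3] at h4
      exact absurd h4 (by decide)))
    (fun i => by
      have h3 := hγ' i
      have h4 : γ' i = 0 ∨ γ' i = 1 := by
        generalize γ' i = z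
        revert z
        decide
      rcases h4 with h4 | h4
      · rw [h4] at h3
        exact Or.inl h3
      · rw [h4] at h3
        exact Or.inr h3)
  have h3 : ∀ z : Fin (1 + 1), Submodule.span ℂ (b '' {a | g a = z}) ≠ ⊥ := fun z h4 => by
    obtain ⟨a, ha⟩ := hg z
    have h5 : b a ∈ Submodule.span ℂ (b '' {a | g a = z}) :=
      Submodule.subset_span ⟨a, ha, rfl⟩
    rw [h4, Submodule.mem_bot] at h5
    exact hb.ne_zero a h5
  rcases h2 with h2 | h2
  · exact h3 0 h2
  · exact h3 1 h2

/-- **The theorem**: linear systems with powerful members and fibres which are products of cyclic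
covers of the line. -/
theorem cyc_lin {N : ℕ} {v : Fin (N + 1) → K}
    (hv : NormalModel v) (hK : Algebra.trdeg ℂ K = (d + e : ℕ)) (hcan : Canonical v (d + e))
    (hd : 1 ≤ d) (hdk : d + k = n)
    {V : Submodule ℂ K} (hV : Module.finrank ℂ V = n + 1) (hL : Algebra.trdeg ℂ (rf V) = d)
    {φ : Fin q → K} (hφ0 : ∀ i, φ i ≠ 0) (hφ : Submodule.span ℂ (Set.range φ) = V)
    (hc : Connected V φ)
    {R : ℕ} (hR : R = n + 2 ∨
      ((∃ τ : Fin (n + 3) → Fin q, ∀ i j, i ≠ j → ∀ t : ℂ, φ (τ i) ≠ t • φ (τ j)) ∧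
        R = n + 1)) {r : ℝ}
    (hs : (R : ℝ) * ((k + 1) * (k + 2)) < 2 * r)
    (h : ∀ P, IsPrimeDivisor v P → ∀ a : ℤ, (∀ f ∈ V, f = 0 ∨ a ≤ P.ord f) →
      (∃ f ∈ V, f ≠ 0 ∧ P.ord f = a) → (∃ i, P.ord (φ i) ≠ a) →
      ∃ i i', r ≤ ((P.ord (φ i) - P.ord (φ i') : ℤ) : ℝ))
    {m s : Fin e → ℕ} {x z c : Fin e → K} {a : ∀ j, Fin (s j) → ℕ}
    {g : ∀ j, Fin (s j) → Polynomial (acl ℂ (rf V : Set K))}
    (hcyc : CycData (acl ℂ (rf V : Set K)) x z m s g a c) :
    ((∃ j, wsum m s g a j < 2) → Unir K (d + e) ∧ kodairaDim v (d + e) 0 = ⊥ ∧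
      ∀ A, Effective v A → numericalDim v (d + e) 0 A = ⊥) ∧
    ((∀ j, 2 ≤ wsum m s g a j) →
      kodairaDim v (d + e) 0 =
        ((d + (Finset.univ.filter fun j => 2 < wsum m s g a j).card : ℕ) : WithBot ℕ) ∧
      ∀ A, Effective v A → Integral v A → numericalDim v (d + e) 0 A =
        ((d + (Finset.univ.filter fun j => 2 < wsum m s g a j).card : ℕ) : EReal)) := by
  classical
  obtain ⟨h1, h2⟩ := cyc_can hv hK hcan (acl_closed (rf V : Set K)) hcyc
  refine ⟨fun hw => ⟨unir_data hv hK hcyc hw, h1 hw⟩, fun hws => ?_⟩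
  refine h2 _ hws ?_ ?_
  · have h3 : (Finset.univ.filter fun j => 2 < wsum m s g a j).card +
        (Finset.univ.filter fun j => wsum m s g a j = 2).card = e := by
      rw [← Finset.card_union_of_disjoint, ← Finset.filter_or, Finset.filter_true_of_mem,
        Finset.card_univ, Fintype.card_fin]
      · intro j _
        rcases lt_or_eq_of_le (hws j) with h | h
        · exact Or.inl h
        · exact Or.inr h.symm
      · rw [Finset.disjoint_filter]
        intro j _ h4 h5
        rw [h5] at h4
        exact lt_irrefl _ h4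
    omega
  · let ψ := (Finset.univ.filter fun j => 2 < wsum m s g a j).equivFin
    have h5 := (Pool.Agent.V11322.LF.lin_pair (c := 1) (R := R)
      (lam := (Finset.univ.filter fun j => 2 < wsum m s g a j).card) hd hdk hK hL hφ0 hφ
      (dcp_of hV hφ) (not_dcp hc) (by
        rcases hR with h4 | ⟨h4, h5⟩
        · left
          omega
        · exact Or.inr ⟨rfl, h4, h5⟩) {P | IsPrimeDivisor v P} (fun _ => 0) (fun P _ => le_rfl)
      hs.le (fun P hP a ha hb hi => by
        obtain ⟨i, i', h4⟩ := h P hP a ha hb hi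
        exact ⟨i, i', rfl, by rw [sub_zero, mul_one]; exact h4⟩) (fun δ₂ h3 h4 => by
        obtain ⟨M, hM, θ, hθ, hne⟩ := cyc_low (N := d + e) hcyc hws
          (κ := fun i => (ψ.symm i : Fin e)) (fun a b hab => ψ.symm.injective (Subtype.ext hab))
          (fun i => (Finset.mem_filter.1 (ψ.symm i).2).2) {P | IsPrimeDivisor v P}
        refine ⟨M, hM, θ, fun b => ⟨(hθ b).1, fun P hP hPd G hG => ?_⟩, hne⟩
        rcases (hθ b).2 P hP hPd G hG with h5 | h5
        · exact Or.inl h5
        · right
          refine le_trans ?_ h5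
          rw [mul_zero, neg_zero, neg_nonpos]
          exact mul_nonneg (Nat.cast_nonneg _) (h3 P hP))).2 d rfl hs
    exact h5

end

end Pool.Agent.V5SU
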