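import Pool.Agent.V1157.KL.CycB
import Pool.Agent.V5SU.Data

/-! Kodaira dimension `-∞` implies uniruled, for products of families of cyclic covers over a
variety of log general type. -/

set_option autoImplicit false
set_option linter.overlappingInstances false
set_option linter.unusedSectionVars false

open FF Pool.Agent.W602.GT Pool.Agent.TH585.SV
open Pool.Agent.Y172 Pool.Agent.Y191 Pool.Agent.V1157.KL

namespace Pool.Agent.V5SU

theorem main (K0 : Type) [Field K0] [Algebra ℂ K0] [Algebra.EssFiniteType ℂ K0] (n p : ℕ)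
    (y : Fin (n + 1) → K0) (B : Place ℂ K0 → Prop) (hy : ∀ i, y i ≠ 0)
    (halg : ∀ z : K0, IsAlgebraic (IntermediateField.adjoin ℂ (Set.range fun i => y i / y 0)) z)
    (hgt : LogGeneralType ℂ K0 p (fun P => (∃ i, P.ord (y i) ≠ P.ord (y 0)) ∨ B P)) :
    ∃ μ : ℕ, ∀ (K : Type) [Field K] [Algebra ℂ K] [Algebra K0 K] [IsScalarTower ℂ K0 K]
      (N e : ℕ) (v : Fin (N + 1) → K), NormalModel v → Algebra.trdeg ℂ K = (p + e : ℕ) →
      Canonical v (p + e) →
      (∀ P, IsPrimeDivisor v P →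
        (∀ g : K0, P.ord (algebraMap K0 K g) = 0) ∨ Mult y B μ P 0) →
      ∀ (m s : Fin e → ℕ) (x z c : Fin e → K) (a : ∀ j, Fin (s j) → ℕ)
        (g : ∀ j, Fin (s j) → Polynomial (acl ℂ (img K0 K : Set K))),
      CycData (acl ℂ (img K0 K : Set K)) x z m s g a c →
      [kodairaDim v (p + e) 0 = ⊥, ∀ A, Effective v A → numericalDim v (p + e) 0 A = ⊥,
        ∃ j, wsum m s g a j < 2].TFAE ∧
      (kodairaDim v (p + e) 0 = ⊥ → Unir K (p + e)) ∧
      (kodairaDim v (p + e) 0 ≠ ⊥ →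
        kodairaDim v (p + e) 0 =
          ((p + (Finset.univ.filter fun j => 2 < wsum m s g a j).card : ℕ) : WithBot ℕ) ∧
        ∀ A, Effective v A → Integral v A → numericalDim v (p + e) 0 A =
          ((p + (Finset.univ.filter fun j => 2 < wsum m s g a j).card : ℕ) : EReal)) := by
  obtain ⟨μ, hμ⟩ := cyc_lgt K0 n p y B hy halg hgt
  refine ⟨μ, ?_⟩
  intro K _ _ _ _ N e v hv hn hcan hcond m s x z c a g hc
  obtain ⟨h1, h2⟩ := hμ K N e v hv hn hcan hcond m s x z c a g hc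
  have h3 : ¬ (∃ j, wsum m s g a j < 2) → ∀ j, 2 ≤ wsum m s g a j := fun h j => by
    by_contra h4
    exact h ⟨j, not_le.1 h4⟩
  have h4 : kodairaDim v (p + e) 0 = ⊥ → ∃ j, wsum m s g a j < 2 := by
    intro h
    by_contra h5
    rw [(h2 (h3 h5)).1] at h
    exact WithBot.coe_ne_bot h
  refine ⟨?_, fun h => unir_data hv hn hc (h4 h), fun h => h2 (h3 fun h5 => h (h1 h5).1)⟩
  tfae_have 1 → 3 := h4
  tfae_have 3 → 2 := fun h => (h1 h).2
  tfae_have 2 → 1 := by
    intro h
    by_contra h5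
    have e0 : Effective v 0 := ⟨fun P _ => le_rfl, by simp⟩
    have i0 : Integral v 0 := fun P _ => ⟨0, by simp⟩
    have h6 := (h2 (h3 fun h7 => h5 (h1 h7).1)).2 0 e0 i0
    rw [h 0 e0] at h6
    exact EReal.coe_ne_bot _ h6.symm
  tfae_finish

end Pool.Agent.V5SU
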