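import Pool.Agent.Y191.CorCP
import Pool.Agent.V5SU.Main
import Pool.Agent.V5SU.Lin

/-!
The Campana-Peternell inequality for products of cyclic covers of the line.
-/

set_option autoImplicit false
set_option linter.overlappingInstances false
set_option linter.unusedSectionVars false

open FF Pool.Agent.W602.GT Pool.Agent.W603.LV Pool.Agent.TH585.SV Pool.Agent.W619.PQ
open Pool.Agent.Y172 Pool.Agent.Y191 Pool.Agent.V1157.KL

namespace Pool.Agent.V5SU

section

variable {K : Type} [Field K] [Algebra ℂ K] {F : IntermediateField ℂ K} {e N n : ℕ}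
variable {x y : Fin e → K} {m s : Fin e → ℕ} {g : ∀ j, Fin (s j) → Polynomial F}
  {a : ∀ j, Fin (s j) → ℕ} {c : Fin e → K} {z : Fin (N + 1) → K}

/-- bounds for the numbers of sections, and for the Iitaka dimensions -/
theorem cyc_cp (hz : NormalModel z) (hn : Algebra.trdeg ℂ K = n) (hcan : Canonical z n)
    (hF : Closed F) (h : CycData F x y m s g a c) (hle : e ≤ n) {D : Place ℂ K → ℚ}
    (hD : Effective z D) (hps : PsefSub z n 0 D) :
    (∀ j, 2 ≤ wsum m s g a j) ∧ ∀ h' : ℕ, IitakaGe z D h' →
      h' ≤ n - (Finset.univ.filter fun j => wsum m s g a j = 2).card := by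
  classical
  have hess := hz.ess
  have hch : CharZero F := charZero_of_injective_algebraMap (algebraMap ℂ F).injective
  have e0 : ∀ (m : ℕ) (B : Place ℂ K → ℚ), m • (0 : Place ℂ K → ℚ) + B = B := fun m B => by simp
  obtain ⟨p, z', e', E, hFr⟩ := exists_FrF hn hF h.bas
  obtain ⟨Sφ, hSφ⟩ := phic_reg (x := x) (m := m) (s := s) (g := g) (a := a)
  obtain ⟨H, hH, m1, hm1, hpt⟩ := hps
  constructor
  · intro j0
    by_contra hj0
    rw [not_le] at hj0
    obtain ⟨m0, hm0⟩ := zero_can (A := H) hz hcan hH hn hFr h.phic_ne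
      (fun P G hG hP n _ => h.cyc_fin hG hP n) (Finset.mem_singleton_self j0)
      (fun P => (∑ j, ∑ k, (g j k).natDegree) * ∑ i, (P.ord (x i)).natAbs)
      (τ := ((2 - wsum m s g a j0 : ℚ) : ℝ)) (by
        have : (0 : ℚ) < 2 - wsum m s g a j0 := by linarith
        exact_mod_cast this)
      (fun P ρ hρ hP n _ => h.cyc_inf hρ hP n)
    obtain ⟨ω, hω0, hω⟩ := hpt (m0 + 1) (by omega)
    refine hω0 (hm0 ((m0 + 1) * m1) ?_ ω ?_)
    · have : m0 + 1 ≤ (m0 + 1) * m1 := Nat.le_mul_of_pos_right _ hm1
      omega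
    · refine ⟨hω.1, fun P hP G hG => ?_⟩
      rcases hω.2 P hP G hG with h1 | h1
      · exact Or.inl h1
      · right
        refine le_trans ?_ h1
        have h2 := hD.1 P hP
        have h3 : (0 : ℚ) ≤ (((m0 + 1) * m1 : ℕ) : ℚ) * D P :=
          mul_nonneg (Nat.cast_nonneg _) h2
        change -(H P) ≤ -((((m0 + 1) * m1 : ℕ) • ((0 : ℚ) - D P)) + H P)
        rw [nsmul_eq_mul]
        linarith
  · intro h' hh'
    let ι := {j : Fin e // wsum m s g a j = 2}
    have hup : ∀ A, Effective z A → ∃ C : ℕ, ∀ m' : ℕ, 1 ≤ m' → ∀ (r : ℕ) (f : Fin r → K),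
        LinearIndependent ℂ f →
        (∀ i, ∃ ω, Pool.Agent.Y172.IsSection z n m' (m' • (0 : Place ℂ K → ℚ) + A) ω ∧
          ω E = f i) →
        r ≤ C * m' ^ (n - (Finset.univ.filter fun j => wsum m s g a j = 2).card) := by
      intro A' hA'
      simp only [e0]
      refine up_can (ι := ι) (J := fun j => {j.1}) (l := fun j => j.1)
        (T := Finset.univ.filter fun j => wsum m s g a j = 2) hz hcan hA' hn hFr h.phic_ne
        h.phic_lin hSφ (fun P G hG hP n _ => h.cyc_fin hG hP n)
        (fun j => Finset.mem_singleton_self _)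
        (fun P => (∑ j, ∑ k, (g j k).natDegree) * ∑ i, (P.ord (x i)).natAbs)
        (fun j P ρ hρ hP n _ => ?_) (fun j hj => ?_) (by
          have h1 := Finset.card_le_univ (Finset.univ.filter fun j => wsum m s g a j = 2)
          rw [Fintype.card_fin] at h1
          omega)
      · have h8 := h.cyc_inf hρ hP n
        have h9 : (2 - wsum m s g a j.1 : ℚ) = 0 := by
          rw [j.2]
          ring
        rw [h9, Rat.cast_zero, zero_mul, mul_zero, add_zero] at h8
        exact h8
      · exact ⟨⟨j, (Finset.mem_filter.1 hj).2⟩, Finset.mem_singleton_self _⟩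
    obtain ⟨C, hC⟩ := hup H hH
    exact cp_bound hFr.frame hC hm1 hpt hh'

end

theorem card_two {e : ℕ} (W : Fin e → ℚ) (hws : ∀ j, 2 ≤ W j) (p : ℕ) :
    p + e - (Finset.univ.filter fun j => W j = 2).card =
      p + (Finset.univ.filter fun j => 2 < W j).card := by
  classical
  have h3 : (Finset.univ.filter fun j => 2 < W j).card +
      (Finset.univ.filter fun j => W j = 2).card = e := by
    rw [← Finset.card_union_of_disjoint, ← Finset.filter_or, Finset.filter_true_of_mem,
      Finset.card_univ, Fintype.card_fin]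
    · intro j _
      rcases lt_or_eq_of_le (hws j) with h | h
      · exact Or.inl h
      · exact Or.inr h.symm
    · rw [Finset.disjoint_filter]
      intro j _ h4 h5
      rw [h5] at h4
      exact lt_irrefl _ h4
  omega

end Pool.Agent.V5SU
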