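import Pool.Agent.V5SU.Arith

/-! A parameter of a cyclic cover of the line with weights of sum less than two. -/

set_option autoImplicit false

open IntermediateField

namespace Pool.Agent.V5SU

variable {Ω : Type} [Field Ω] [Algebra ℂ Ω]

theorem root_mem (M : IntermediateField ℂ Ω) (hMc : ∀ z : Ω, IsAlgebraic M z → z ∈ M) {m : ℕ}
    (hm : 1 ≤ m) {z c u w : Ω} (hc : c ∈ M) (hu : u ∈ adjoin ℂ ((M : Set Ω) ∪ {w}))
    (h : z ^ m = c * u ^ m) : z ∈ adjoin ℂ ((M : Set Ω) ∪ {w}) := by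
  by_cases hu0 : u = 0
  · rw [hu0, zero_pow (by omega), mul_zero] at h
    rw [pow_eq_zero_iff (by omega)] at h
    rw [h]
    exact zero_mem _
  · have h1 : (z / u) ^ m = c := by
      rw [div_pow, h, mul_div_assoc, div_self (pow_ne_zero _ hu0), mul_one]
    have h2 : z / u ∈ M := by
      apply hMc
      have h3 : IsAlgebraic M ((z / u) ^ m) := by
        rw [h1]
        exact isAlgebraic_algebraMap (⟨c, hc⟩ : M)
      exact IsAlgebraic.of_pow (by omega) h3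
    have h3 : z = (z / u) * u := by field_simp
    rw [h3]
    exact mul_mem (subset_adjoin ℂ _ (Or.inl h2)) hu

theorem wt_add {m s t : ℕ} (h : m ∣ s) : wt m (s + t) = wt m t := by
  obtain ⟨k, rfl⟩ := h
  unfold wt
  rw [Nat.gcd_mul_left_add_right]

/-- the product of the powers divisible by `m` -/
theorem pow_part {m : ℕ} (x : Ω) (R : Multiset (Ω × ℕ)) (hR : ∀ p ∈ R, m ∣ p.2) :
    (R.map fun p => (x - p.1) ^ p.2).prod = ((R.map fun p => (x - p.1) ^ (p.2 / m)).prod) ^ m := by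
  rw [← Multiset.prod_map_pow]
  congr 1
  refine Multiset.map_congr rfl fun p hp => ?_
  rw [← pow_mul, Nat.div_mul_cancel (hR p hp)]

theorem exists_par [IsAlgClosed Ω] (M : IntermediateField ℂ Ω)
    (hMc : ∀ z : Ω, IsAlgebraic M z → z ∈ M) {m : ℕ} (hm : 1 ≤ m) {x z c : Ω} (hx : x ∉ M)
    (hc : c ∈ M) (R : Multiset (Ω × ℕ)) (hR : ∀ p ∈ R, p.1 ∈ M)
    (hz : z ^ m = c * (R.map fun p => (x - p.1) ^ p.2).prod)
    (hw : (R.map fun p => wt m p.2).sum + wt m (R.map Prod.snd).sum < 2) :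
    ∃ w : Ω, x ∈ adjoin ℂ ((M : Set Ω) ∪ {w}) ∧ z ∈ adjoin ℂ ((M : Set Ω) ∪ {w}) := by
  classical
  obtain ⟨R1, hR1⟩ : ∃ S, S = R.filter fun p => m ∣ p.2 := ⟨_, rfl⟩
  obtain ⟨R2, hR2⟩ : ∃ S, S = R.filter fun p => ¬ m ∣ p.2 := ⟨_, rfl⟩
  have hRR : R = R1 + R2 := by
    rw [hR1, hR2]
    exact (Multiset.filter_add_not _ _).symm
  have h1 : ∀ p ∈ R1, m ∣ p.2 := fun p hp => by
    rw [hR1] at hp
    exact (Multiset.mem_filter.1 hp).2
  have h2 : ∀ p ∈ R2, ¬ m ∣ p.2 := fun p hp => by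
    rw [hR2] at hp
    exact (Multiset.mem_filter.1 hp).2
  have h1M : ∀ p ∈ R1, p.1 ∈ M := fun p hp => hR p (by rw [hRR]; exact Multiset.mem_add.2 (Or.inl hp))
  have h2M : ∀ p ∈ R2, p.1 ∈ M := fun p hp => hR p (by rw [hRR]; exact Multiset.mem_add.2 (Or.inr hp))
  have hs1 : m ∣ (R1.map Prod.snd).sum := Multiset.dvd_sum fun a ha => by
    obtain ⟨p, hp, rfl⟩ := Multiset.mem_map.1 ha
    exact h1 p hp
  have hz1 : (R1.map fun p => wt m p.2).sum = 0 := by
    refine Multiset.sum_eq_zero fun a ha => ?_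
    obtain ⟨p, hp, rfl⟩ := Multiset.mem_map.1 ha
    exact wt_eq_zero hm (h1 p hp)
  obtain ⟨h, hh⟩ : ∃ h, h = (R1.map fun p => (x - p.1) ^ (p.2 / m)).prod := ⟨_, rfl⟩
  rw [hRR, Multiset.map_add, Multiset.prod_add, pow_part x R1 h1, ← hh] at hz
  rw [hRR, Multiset.map_add, Multiset.map_add, Multiset.sum_add, Multiset.sum_add, hz1, zero_add,
    wt_add hs1] at hw
  have hne : ∀ ρ ∈ M, x - ρ ≠ 0 := fun ρ hρ h0 => hx (by rw [sub_eq_zero.1 h0]; exact hρ)
  have hhE : ∀ w, x ∈ adjoin ℂ ((M : Set Ω) ∪ {w}) → h ∈ adjoin ℂ ((M : Set Ω) ∪ {w}) := by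
    intro w hxw
    rw [hh]
    refine multiset_prod_mem _ fun a ha => ?_
    obtain ⟨p, hp, rfl⟩ := Multiset.mem_map.1 ha
    exact pow_mem (sub_mem hxw (subset_adjoin ℂ _ (Or.inl (h1M p hp)))) _
  have hxx : x ∈ adjoin ℂ ((M : Set Ω) ∪ {x}) := subset_adjoin ℂ _ (Or.inr rfl)
  have hb := branch hm (R2.map Prod.snd) (fun a ha => by
    obtain ⟨p, hp, rfl⟩ := Multiset.mem_map.1 ha
    exact h2 p hp) (by rw [Multiset.map_map]; exact hw)
  rw [Multiset.card_map] at hb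
  have hMw : ∀ {w ρ : Ω}, ρ ∈ M → ρ ∈ adjoin ℂ ((M : Set Ω) ∪ {w}) := fun hρ =>
    subset_adjoin ℂ _ (Or.inl hρ)
  have hww : ∀ w : Ω, w ∈ adjoin ℂ ((M : Set Ω) ∪ {w}) := fun w => subset_adjoin ℂ _ (Or.inr rfl)
  rcases hb with hb | ⟨hb, hbs⟩
  · rcases Nat.lt_or_ge R2.card 1 with hb0 | hb1
    · have h0 : R2 = 0 := Multiset.card_eq_zero.1 (by omega)
      refine ⟨x, hxx, root_mem M hMc hm hc (hhE x hxx) ?_⟩
      rw [hz, h0]
      simp
    · obtain ⟨p, hp⟩ := Multiset.card_eq_one.1 (le_antisymm hb hb1)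
      have hpM : p.1 ∈ M := h2M p (by rw [hp]; exact Multiset.mem_singleton_self p)
      obtain ⟨w, hw⟩ := IsAlgClosed.exists_pow_nat_eq (x - p.1) (n := m) (by omega)
      have hxw : x ∈ adjoin ℂ ((M : Set Ω) ∪ {w}) := by
        have : x = w ^ m + p.1 := by rw [hw]; ring
        rw [this]
        exact add_mem (pow_mem (hww w) _) (hMw hpM)
      refine ⟨w, hxw, root_mem M hMc hm hc (mul_mem (hhE w hxw) (pow_mem (hww w) p.2)) ?_⟩
      rw [hz, hp, Multiset.map_singleton, Multiset.prod_singleton, mul_pow, ← hw]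
      ring
  · obtain ⟨p, q, hpq⟩ := Multiset.card_eq_two.1 hb
    have hpM : p.1 ∈ M := h2M p (by rw [hpq]; simp)
    have hqM : q.1 ∈ M := h2M q (by rw [hpq]; simp)
    have hprod : (R2.map fun p => (x - p.1) ^ p.2).prod = (x - p.1) ^ p.2 * (x - q.1) ^ q.2 := by
      rw [hpq]
      simp
    have hsum : m ∣ p.2 + q.2 := by
      rw [hpq] at hbs
      simpa using hbs
    obtain ⟨t, ht⟩ := hsum
    rw [hprod] at hz
    by_cases hρ : p.1 = q.1
    · refine ⟨x, hxx, root_mem M hMc hm hc (mul_mem (hhE x hxx)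
        (pow_mem (sub_mem hxx (hMw hqM)) t)) ?_⟩
      rw [hz, hρ, mul_pow, ← pow_mul, mul_comm t m, ← ht]
      ring
    · obtain ⟨w, hw⟩ := IsAlgClosed.exists_pow_nat_eq ((x - p.1) / (x - q.1)) (n := m) (by omega)
      have hq := hne _ hqM
      have hw1 : w ^ m * (x - q.1) = x - p.1 := by
        rw [hw]
        field_simp
      have hw2 : 1 - w ^ m ≠ 0 := by
        intro h0
        have h3 : w ^ m = 1 := by linear_combination -h0
        rw [h3, one_mul] at hw1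
        exact hρ (by linear_combination hw1)
      have hxw : x ∈ adjoin ℂ ((M : Set Ω) ∪ {w}) := by
        have : x = (p.1 - q.1 * w ^ m) / (1 - w ^ m) := by
          field_simp
          linear_combination -hw1
        rw [this]
        exact div_mem (sub_mem (hMw hpM) (mul_mem (hMw hqM) (pow_mem (hww w) _)))
          (sub_mem (one_mem _) (pow_mem (hww w) _))
      refine ⟨w, hxw, root_mem M hMc hm hc (mul_mem (mul_mem (hhE w hxw) (pow_mem (hww w) p.2))
        (pow_mem (sub_mem hxw (hMw hqM)) t)) ?_⟩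
      have h3 : (w ^ p.2) ^ m = (w ^ m) ^ p.2 := by rw [← pow_mul, ← pow_mul, mul_comm]
      have h4 : ((x - q.1) ^ t) ^ m = (x - q.1) ^ p.2 * (x - q.1) ^ q.2 := by
        rw [← pow_mul, mul_comm t m, ← ht, pow_add]
      rw [hz, mul_pow, mul_pow, h3, h4, ← hw1, mul_pow]
      ring

end Pool.Agent.V5SU
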